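import Pool.Agent.L7h7.HP.Tv
import Pool.Agent.L7h7.HP.Exist

/-!
# Project HP (MP_7e57c2_pr): the probability that `n + 1` links to `n`
-/

set_option autoImplicit false

open Finset Filter Topology

namespace Pool.Agent.L7h75.HP

open Pool.Agent.L7h7.HP

/-- two-sided bounds of the affinities -/
theorem ga_bd (θ : Param 2) : ∃ g G : ℝ, 0 < g ∧ g ≤ G ∧ ∀ i j, g ≤ θ.ga i j ∧ θ.ga i j ≤ G := by
  refine ⟨min (min (θ.ga 0 0) (θ.ga 0 1)) (min (θ.ga 1 0) (θ.ga 1 1)),
    θ.ga 0 0 + θ.ga 0 1 + θ.ga 1 0 + θ.ga 1 1, ?_, ?_, ?_⟩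
  · exact lt_min (lt_min (θ.ga_pos _ _) (θ.ga_pos _ _)) (lt_min (θ.ga_pos _ _) (θ.ga_pos _ _))
  · have h1 : min (min (θ.ga 0 0) (θ.ga 0 1)) (min (θ.ga 1 0) (θ.ga 1 1)) ≤ θ.ga 0 0 :=
      (min_le_left _ _).trans (min_le_left _ _)
    have := θ.ga_pos 0 1
    have := θ.ga_pos 1 0
    have := θ.ga_pos 1 1
    linarith
  · have a := θ.ga_pos 0 0
    have b := θ.ga_pos 0 1
    have c := θ.ga_pos 1 0
    have d := θ.ga_pos 1 1
    intro i j
    fin_cases i <;> fin_cases j
    · exact ⟨(min_le_left _ _).trans (min_le_left _ _), by show θ.ga 0 0 ≤ _; linarith⟩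
    · exact ⟨(min_le_left _ _).trans (min_le_right _ _), by show θ.ga 0 1 ≤ _; linarith⟩
    · exact ⟨(min_le_right _ _).trans (min_le_left _ _), by show θ.ga 1 0 ≤ _; linarith⟩
    · exact ⟨(min_le_right _ _).trans (min_le_right _ _), by show θ.ga 1 1 ≤ _; linarith⟩

theorem dn_NN (θ : Param 2) {n : ℕ} (h : Hist n) (l : Fin n → Fin 2) (j : Fin 2) :
    dn θ h l j = θ.ga j j + (θ.ga j 0 * NN h l + θ.ga j 1 * (2 * n - NN h l)) := by
  unfold dn
  congr 1
  have h1 : (2 * n : ℝ) = ∑ u : Fin n, (deg h n u.val : ℝ) := by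
    have := deg_sum h
    exact_mod_cast this.symm
  rw [h1]
  unfold NN
  rw [← sum_sub_distrib, mul_sum, mul_sum, ← sum_add_distrib]
  refine sum_congr rfl fun u _ => ?_
  by_cases hu : l u = 0
  · rw [if_pos hu, hu]; ring
  · have hu1 : l u = 1 := by
      have : ∀ a : Fin 2, a ≠ 0 → a = 1 := by decide
      exact this _ hu
    rw [if_neg hu, hu1]; ring

theorem NN_nonneg {n : ℕ} (h : Hist n) (l : Fin n → Fin 2) : 0 ≤ NN h l := by
  unfold NN
  refine sum_nonneg fun u _ => ?_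
  split_ifs
  · exact Nat.cast_nonneg _
  · exact le_rfl

theorem NN_le {n : ℕ} (h : Hist n) (l : Fin n → Fin 2) : NN h l ≤ 2 * n := by
  have h1 : (2 * n : ℝ) = ∑ u : Fin n, (deg h n u.val : ℝ) := by
    have := deg_sum h
    exact_mod_cast this.symm
  rw [h1]
  unfold NN
  refine sum_le_sum fun u _ => ?_
  split_ifs
  · exact le_rfl
  · exact Nat.cast_nonneg _

/-- the normalising sum after one more node -/
theorem dn_succ (θ : Param 2) {n : ℕ} (h : Hist n) (l : Fin n → Fin 2) (v : Fin (n + 1)) (k j : Fin 2) :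
    dn θ (hsn h v) (lsn l k) j = dn θ h l j + θ.ga j (lsn l k v) + θ.ga j k := by
  unfold dn
  have e1 : ∀ u : Fin (n + 1), θ.ga j (lsn l k u) * (deg (hsn h v) (n + 1) u.val : ℝ) =
      θ.ga j (lsn l k u) * (deg h n u.val : ℝ) + (if u = v then θ.ga j (lsn l k u) else 0) +
        (if u = Fin.last n then θ.ga j (lsn l k u) else 0) := by
    intro u
    have hu := u.isLt
    rw [deg_hsn_succ h v _ (by omega)]
    have c1 : (u.val = v.val) = (u = v) := propext ⟨fun h => Fin.ext h, fun h => congrArg _ h⟩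
    have c2 : (u.val = n) = (u = Fin.last n) := propext ⟨fun h => Fin.ext h, fun h => by rw [h]; rfl⟩
    simp only [c1, c2]
    push_cast
    split_ifs <;> ring
  rw [sum_congr rfl fun u _ => e1 u, sum_add_distrib, sum_add_distrib, sum_ite_eq', sum_ite_eq',
    if_pos (mem_univ _), if_pos (mem_univ _), Fin.sum_univ_castSucc, lsn_last]
  have e2 : (deg h n (Fin.last n).val : ℝ) = 0 := by
    have := deg_self h
    exact_mod_cast this
  rw [e2, mul_zero, add_zero]
  have e3 : ∀ u : Fin n, θ.ga j (lsn l k u.castSucc) * (deg h n (u.castSucc).val : ℝ) =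
      θ.ga j (l u) * (deg h n u.val : ℝ) := fun u => by rw [lsn_cs]; rfl
  rw [sum_congr rfl fun u _ => e3 u]
  ring

theorem tr_last {n : ℕ} (θ : Param 2) (h : Hist n) (l : Fin n → Fin 2) (v : Fin (n + 1)) (k j : Fin 2) :
    tr θ (hsn h v) (lsn l k) j ⟨n, by omega⟩ =
      θ.ga j k * (1 + (if v.val = n then 1 else 0)) / dn θ (hsn h v) (lsn l k) j := by
  unfold tr
  rw [dif_pos (show n < n + 1 by omega)]
  have e1 : lsn l k ⟨n, by omega⟩ = k := lsn_last l k
  have e2 : deg (hsn h v) (n + 1) n = 1 + (if v.val = n then 1 else 0) := by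
    rw [deg_hsn_succ h v n le_rfl, deg_self, if_pos rfl]
    have c1 : (n = v.val) = (v.val = n) := propext ⟨fun h => h.symm, fun h => h.symm⟩
    simp only [c1]
    omega
  show θ.ga j (lsn l k ⟨n, by omega⟩) * (deg (hsn h v) (n + 1) n : ℝ) / _ = _
  rw [e1, e2]
  push_cast
  rfl

/-- `leafP` as an expectation -/
theorem leafP_eq (θ : Param 2) (n : ℕ) : leafP θ n = Ex θ n fun h l =>
    ∑ k, ∑ v : Fin (n + 1), θ.pr k * tr θ h l k v *
      ∑ j, θ.pr j * (θ.ga j k * (1 + (if v.val = n then 1 else 0)) / dn θ (hsn h v) (lsn l k) j) := by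
  have h1 : leafP θ n = Ex θ (n + 2) fun h _ => if (h (Fin.last (n + 1))).val = n then 1 else 0 := by
    unfold leafP Ex law
    refine sum_congr rfl fun h _ => ?_
    by_cases hc : (h (Fin.last (n + 1))).val = n
    · rw [if_pos hc]
      refine sum_congr rfl fun l _ => ?_
      show joint θ h l = joint θ h l * (if (h (Fin.last (n + 1))).val = n then 1 else 0)
      rw [if_pos hc, mul_one]
    · rw [if_neg hc, sum_eq_zero]
      intro l _
      show joint θ h l * (if (h (Fin.last (n + 1))).val = n then 1 else 0) = 0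
      rw [if_neg hc, mul_zero]
  rw [h1, Ex_succ θ (n + 1)]
  have h2 : (fun (h : Hist (n + 1)) (l : Fin (n + 1) → Fin 2) => ∑ j, ∑ v : Fin (n + 1 + 1),
      θ.pr j * tr θ h l j v * (if (hsn h v (Fin.last (n + 1))).val = n then (1 : ℝ) else 0)) =
      fun h l => ∑ j, θ.pr j * tr θ h l j ⟨n, by omega⟩ := by
    funext h l
    refine sum_congr rfl fun j _ => ?_
    have e1 : ∀ v : Fin (n + 1 + 1), (hsn h v (Fin.last (n + 1))).val = v.val :=
      fun v => congrArg Fin.val (hsn_last h v)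
    rw [sum_eq_single (⟨n, by omega⟩ : Fin (n + 1 + 1))]
    · rw [e1, if_pos rfl, mul_one]
    · intro v _ hv
      rw [e1, if_neg, mul_zero]
      intro h3
      exact hv (Fin.ext h3)
    · intro h3
      exact absurd (mem_univ _) h3
  rw [h2, Ex_succ θ n]
  congr 1
  funext h l
  refine sum_congr rfl fun k _ => sum_congr rfl fun v _ => ?_
  congr 1
  refine sum_congr rfl fun j _ => ?_
  rw [tr_last]

theorem Ex_mono (θ : Param 2) (n : ℕ) (F F' : Hist n → (Fin n → Fin 2) → ℝ) (hF : ∀ h l, F h l ≤ F' h l) :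
    Ex θ n F ≤ Ex θ n F' := by
  unfold Ex
  exact sum_le_sum fun h _ => sum_le_sum fun l _ => mul_le_mul_of_nonneg_left (hF h l) (joint_nonneg θ h l)

theorem Ex_add (θ : Param 2) (n : ℕ) (F F' : Hist n → (Fin n → Fin 2) → ℝ) :
    Ex θ n (fun h l => F h l + F' h l) = Ex θ n F + Ex θ n F' := by
  unfold Ex
  simp only [mul_add, sum_add_distrib]

theorem Ex_smul (θ : Param 2) (n : ℕ) (c : ℝ) (F : Hist n → (Fin n → Fin 2) → ℝ) :
    Ex θ n (fun h l => c * F h l) = c * Ex θ n F := by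
  unfold Ex
  simp only [mul_sum]
  refine sum_congr rfl fun h _ => sum_congr rfl fun l _ => ?_
  ring

theorem Ex_const (θ : Param 2) (n : ℕ) (c : ℝ) : Ex θ n (fun _ _ => c) = c := by
  have := Ex_smul θ n c (fun _ _ => 1)
  simp only [mul_one] at this
  rw [this, Ex_one, mul_one]

/-- Convergence of the expectations from a bound by the distance of the proportion from its limit. -/
theorem tendsto_Ex (θ : Param 2) (x₀ : ℝ)
    (lln : Tendsto (fun n : ℕ => Ex θ n fun h l => (NN h l / (2 * n) - x₀) ^ 2) atTop (𝓝 0))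
    (F : ∀ n : ℕ, Hist n → (Fin n → Fin 2) → ℝ) (A C : ℝ) (hC : 0 ≤ C)
    (hF : ∀ n : ℕ, 1 ≤ n → ∀ (h : Hist n) (l : Fin n → Fin 2),
      |F n h l - A| ≤ C * (1 / (n : ℝ) + |NN h l / (2 * n) - x₀|)) :
    Tendsto (fun n : ℕ => Ex θ n (F n)) atTop (𝓝 A) := by
  rw [Metric.tendsto_atTop] at lln ⊢
  intro ε hε
  set δ := ε / (4 * (C + 1)) with hδ
  have hC1 : 0 < C + 1 := by linarith
  have hδ0 : 0 < δ := by positivity
  obtain ⟨N₁, hN₁⟩ := lln (δ ^ 2) (by positivity)
  obtain ⟨N₂, hN₂⟩ := exists_nat_gt (1 / δ)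
  refine ⟨max (max N₁ N₂) 1, fun n hn => ?_⟩
  have hn1 : 1 ≤ n := le_trans (le_max_right _ _) hn
  have hnN1 : N₁ ≤ n := le_trans (le_trans (le_max_left _ _) (le_max_left _ _)) hn
  have hnN2 : N₂ ≤ n := le_trans (le_trans (le_max_right _ _) (le_max_left _ _)) hn
  have h1 := hN₁ n hnN1
  rw [Real.dist_eq, sub_zero] at h1
  have h2 := lt_of_le_of_lt (le_abs_self _) h1
  have hn0 : (0 : ℝ) < n := by exact_mod_cast hn1
  have h3 : 1 / (n : ℝ) ≤ δ := by
    rw [div_le_iff₀ hn0]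
    have h4 : 1 / δ ≤ n := hN₂.le.trans (by exact_mod_cast hnN2)
    rw [div_le_iff₀ hδ0] at h4
    linarith
  have h5 : ∀ (h : Hist n) (l : Fin n → Fin 2), |F n h l - A| ≤
      C * (2 * δ) + C / δ * (NN h l / (2 * n) - x₀) ^ 2 := by
    intro h l
    refine (hF n hn1 h l).trans ?_
    set t := NN h l / (2 * n) - x₀ with ht
    have h6 : |t| ≤ δ + t ^ 2 / δ := by
      rw [← sq_abs t]
      have h7 : 0 ≤ |t| := abs_nonneg t
      have h8 : |t| * δ ≤ (δ + |t| ^ 2 / δ) * δ := by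
        rw [add_mul, div_mul_cancel₀ _ hδ0.ne']
        nlinarith [sq_nonneg (|t| - δ)]
      exact le_of_mul_le_mul_right h8 hδ0
    calc C * (1 / (n : ℝ) + |t|) ≤ C * (δ + (δ + t ^ 2 / δ)) := by
          apply mul_le_mul_of_nonneg_left _ hC
          linarith
      _ = C * (2 * δ) + C / δ * t ^ 2 := by ring
  have h6 : |Ex θ n (F n) - A| ≤ C * (2 * δ) + C / δ * Ex θ n (fun h l => (NN h l / (2 * n) - x₀) ^ 2) := by
    have e1 : Ex θ n (fun h l => C * (2 * δ) + C / δ * (NN h l / (2 * n) - x₀) ^ 2) =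
        C * (2 * δ) + C / δ * Ex θ n (fun h l => (NN h l / (2 * n) - x₀) ^ 2) := by
      rw [Ex_add, Ex_const, Ex_smul]
    have e2 : Ex θ n (F n) - A ≤ Ex θ n (fun h l => C * (2 * δ) + C / δ * (NN h l / (2 * n) - x₀) ^ 2) := by
      have : Ex θ n (F n) ≤ Ex θ n (fun h l => A + (C * (2 * δ) + C / δ * (NN h l / (2 * n) - x₀) ^ 2)) :=
        Ex_mono θ n _ _ fun h l => by
          have := (abs_le.1 (h5 h l)).2
          linarith
      rw [Ex_add, Ex_const] at this
      linarith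
    have e3 : A - Ex θ n (F n) ≤ Ex θ n (fun h l => C * (2 * δ) + C / δ * (NN h l / (2 * n) - x₀) ^ 2) := by
      have : Ex θ n (fun _ _ => A) ≤
          Ex θ n (fun h l => F n h l + (C * (2 * δ) + C / δ * (NN h l / (2 * n) - x₀) ^ 2)) :=
        Ex_mono θ n _ _ fun h l => by
          have := (abs_le.1 (h5 h l)).1
          linarith
      rw [Ex_add, Ex_const] at this
      linarith
    rw [← e1, abs_le]
    constructor <;> linarith
  rw [Real.dist_eq]
  refine lt_of_le_of_lt h6 ?_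
  have h7 : C / δ * Ex θ n (fun h l => (NN h l / (2 * n) - x₀) ^ 2) ≤ C / δ * δ ^ 2 :=
    mul_le_mul_of_nonneg_left h2.le (by positivity)
  have h8 : C / δ * δ ^ 2 = C * δ := by
    rw [pow_two, ← mul_assoc, div_mul_cancel₀ _ hδ0.ne']
  have h9 : (C + 1) * δ = ε / 4 := by
    rw [hδ]; field_simp
  nlinarith

/-- the quotient -/
theorem quot_bd {g G D h t : ℝ} {n : ℕ} (hn : 1 ≤ n) (hg : 0 < g) (hD : 2 * g * n ≤ D) (hh : g ≤ h)
    (hDh : |D - 2 * n * h| ≤ 3 * G + 2 * n * G * |t|) :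
    |n / D - 1 / (2 * h)| ≤ (3 * G + 2 * n * G * |t|) / (4 * g ^ 2 * n) := by
  have hn0 : (0 : ℝ) < n := by exact_mod_cast hn
  have hD0 : 0 < D := lt_of_lt_of_le (by positivity) hD
  have hh0 : 0 < h := lt_of_lt_of_le hg hh
  have e : (n : ℝ) / D - 1 / (2 * h) = (2 * n * h - D) / (2 * h * D) := by
    field_simp
  rw [e, abs_div, abs_of_pos (show 0 < 2 * h * D by positivity), abs_sub_comm]
  refine div_le_div₀ ((abs_nonneg _).trans hDh) hDh (by positivity) ?_
  calc 4 * g ^ 2 * n = 2 * g * (2 * g * n) := by ring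
    _ ≤ 2 * h * D := mul_le_mul (by linarith) hD (by positivity) (by positivity)

theorem s_LEAF : S_LEAF := by
  intro θ x hx
  obtain ⟨g, G, hg, hgG, hb⟩ := ga_bd θ
  have hG : 0 < G := lt_of_lt_of_le hg hgG
  have hs := hx.sum
  rw [Fin.sum_univ_two] at hs
  have x0 := hx.nn 0
  have x1 := hx.nn 1
  have hhg : ∀ j, g ≤ hh θ x j := by
    intro j
    unfold hh
    rw [Fin.sum_univ_two]
    nlinarith [mul_le_mul_of_nonneg_right (hb j 0).1 x0, mul_le_mul_of_nonneg_right (hb j 1).1 x1]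
  have pr1 : ∑ k, θ.pr k = 1 := θ.pr_sum
  -- the function
  have key : (fun n : ℕ => (n : ℝ) * leafP θ n) = fun n : ℕ => Ex θ n fun h l => (n : ℝ) *
      ∑ k, ∑ v : Fin (n + 1), θ.pr k * tr θ h l k v *
      ∑ j, θ.pr j * (θ.ga j k * (1 + (if v.val = n then 1 else 0)) / dn θ (hsn h v) (lsn l k) j) := by
    funext n
    rw [leafP_eq, ← Ex_smul]
  rw [key]
  refine tendsto_Ex θ (x 0) hx.lln _ _ (G ^ 2 / g ^ 2) (by positivity) fun n hn h l => ?_
  have hn0 : (0 : ℝ) < n := by exact_mod_cast hn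
  set t := NN h l / (2 * n) - x 0 with ht
  have hN : NN h l = 2 * n * (t + x 0) := by rw [ht]; field_simp; ring
  have hN0 := NN_nonneg h l
  have hN1 := NN_le h l
  -- the normalising sums
  have hDlow : ∀ j, 2 * g * n ≤ dn θ h l j := by
    intro j
    rw [dn_NN]
    have := (hb j j).1
    nlinarith [mul_le_mul_of_nonneg_right (hb j 0).1 hN0,
      mul_le_mul_of_nonneg_right (hb j 1).1 (show 0 ≤ 2 * n - NN h l by linarith)]
  have hDup : ∀ j, |dn θ h l j - 2 * n * hh θ x j| ≤ G + 2 * n * G * |t| := by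
    intro j
    have e1 : dn θ h l j - 2 * n * hh θ x j = θ.ga j j + 2 * n * ((θ.ga j 0 - θ.ga j 1) * t) := by
      rw [dn_NN, hN]
      unfold hh
      rw [Fin.sum_univ_two]
      have : x 1 = 1 - x 0 := by linarith
      rw [this]; ring
    rw [e1]
    refine (abs_add_le _ _).trans ?_
    have e2 : |θ.ga j j| ≤ G := by rw [abs_of_pos (θ.ga_pos _ _)]; exact (hb j j).2
    have e3 : |2 * n * ((θ.ga j 0 - θ.ga j 1) * t)| ≤ 2 * n * G * |t| := by
      rw [abs_mul (2 * (n : ℝ)), abs_mul (θ.ga j 0 - θ.ga j 1), abs_of_pos (show (0 : ℝ) < 2 * n by positivity),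
        mul_assoc (2 * (n : ℝ))]
      refine mul_le_mul_of_nonneg_left (mul_le_mul_of_nonneg_right ?_ (abs_nonneg t)) (by positivity)
      rw [abs_le]
      have := (hb j 0).2
      have := (hb j 1).2
      have := θ.ga_pos j 0
      have := θ.ga_pos j 1
      constructor <;> linarith
    linarith
  -- the quotients
  have hq : ∀ (k j : Fin 2) (v : Fin (n + 1)), |n / dn θ (hsn h v) (lsn l k) j - 1 / (2 * hh θ x j)| ≤
      (3 * G + 2 * n * G * |t|) / (4 * g ^ 2 * n) ∧ n / dn θ (hsn h v) (lsn l k) j ≤ 1 / (2 * g) ∧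
      0 < dn θ (hsn h v) (lsn l k) j := by
    intro k j v
    have e1 := dn_succ θ h l v k j
    have e2 := (hb j (lsn l k v)).2
    have e3 := (hb j k).2
    have e4 := θ.ga_pos j (lsn l k v)
    have e5 := θ.ga_pos j k
    have e6 := hDlow j
    have e7 := abs_le.1 (hDup j)
    refine ⟨quot_bd hn hg (by linarith) (hhg j) ?_, ?_, dn_pos _ _ _ _⟩
    · rw [e1, abs_le]
      constructor <;> linarith [e7.1, e7.2]
    · rw [div_le_div_iff₀ (dn_pos _ _ _ _) (by positivity)]
      linarith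
  set B := (3 * G + 2 * n * G * |t|) / (4 * g ^ 2 * n) with hB
  have hB0 : 0 ≤ B := by positivity
  -- one target
  have hP : ∀ (k : Fin 2) (v : Fin (n + 1)),
      |(n : ℝ) * ∑ j, θ.pr j * (θ.ga j k * (1 + (if v.val = n then 1 else 0)) / dn θ (hsn h v) (lsn l k) j) -
        aa θ x k| ≤ G * B + (if v.val = n then G / (2 * g) else 0) := by
    intro k v
    have e1 : (n : ℝ) * ∑ j, θ.pr j * (θ.ga j k * (1 + (if v.val = n then 1 else 0)) /
        dn θ (hsn h v) (lsn l k) j) - aa θ x k = ∑ j, θ.pr j * (θ.ga j k *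
          (n / dn θ (hsn h v) (lsn l k) j - 1 / (2 * hh θ x j)) + θ.ga j k *
          ((if v.val = n then 1 else 0) * (n / dn θ (hsn h v) (lsn l k) j))) := by
      unfold aa
      rw [mul_sum, ← sum_sub_distrib]
      refine sum_congr rfl fun j _ => ?_
      ring
    rw [e1]
    have e2 : ∀ j ∈ (univ : Finset (Fin 2)), |θ.pr j * (θ.ga j k *
          (n / dn θ (hsn h v) (lsn l k) j - 1 / (2 * hh θ x j)) + θ.ga j k *
          ((if v.val = n then 1 else 0) * (n / dn θ (hsn h v) (lsn l k) j)))| ≤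
        θ.pr j * (G * B + (if v.val = n then G / (2 * g) else 0)) := by
      intro j _
      obtain ⟨q1, q2, q3⟩ := hq k j v
      rw [abs_mul, abs_of_nonneg (θ.pr_nonneg j)]
      refine mul_le_mul_of_nonneg_left ?_ (θ.pr_nonneg j)
      refine (abs_add_le _ _).trans (add_le_add ?_ ?_)
      · rw [abs_mul, abs_of_pos (θ.ga_pos _ _)]
        exact mul_le_mul (hb j k).2 q1 (abs_nonneg _) hG.le
      · have q4 : 0 ≤ n / dn θ (hsn h v) (lsn l k) j := by positivity
        split_ifs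
        · rw [one_mul, abs_mul, abs_of_pos (θ.ga_pos _ _), abs_of_nonneg q4]
          calc θ.ga j k * (n / dn θ (hsn h v) (lsn l k) j) ≤ G * (1 / (2 * g)) :=
                mul_le_mul (hb j k).2 q2 q4 hG.le
            _ = G / (2 * g) := by ring
        · simp
    refine (abs_sum_le_sum_abs _ _).trans ((sum_le_sum e2).trans ?_)
    rw [← sum_mul, pr1, one_mul]
  -- the sum over the targets
  have hV : |(n : ℝ) * ∑ k, ∑ v : Fin (n + 1), θ.pr k * tr θ h l k v *
      (∑ j, θ.pr j * (θ.ga j k * (1 + (if v.val = n then 1 else 0)) / dn θ (hsn h v) (lsn l k) j)) -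
      ∑ k, θ.pr k * aa θ x k| ≤ G * B + G / (2 * g) * (G / (2 * g * n)) := by
    have e1 : (n : ℝ) * ∑ k, ∑ v : Fin (n + 1), θ.pr k * tr θ h l k v *
      (∑ j, θ.pr j * (θ.ga j k * (1 + (if v.val = n then 1 else 0)) / dn θ (hsn h v) (lsn l k) j)) -
      ∑ k, θ.pr k * aa θ x k = ∑ k, θ.pr k * ∑ v : Fin (n + 1), tr θ h l k v *
        ((n : ℝ) * ∑ j, θ.pr j * (θ.ga j k * (1 + (if v.val = n then 1 else 0)) /
          dn θ (hsn h v) (lsn l k) j) - aa θ x k) := by
      rw [mul_sum, ← sum_sub_distrib]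
      refine sum_congr rfl fun k _ => ?_
      have e2 : aa θ x k = ∑ v : Fin (n + 1), tr θ h l k v * aa θ x k := by
        rw [← sum_mul, tr_sum, one_mul]
      have e3 : ∀ v : Fin (n + 1), tr θ h l k v *
        ((n : ℝ) * ∑ j, θ.pr j * (θ.ga j k * (1 + (if v.val = n then 1 else 0)) /
          dn θ (hsn h v) (lsn l k) j) - aa θ x k) = tr θ h l k v *
        ((n : ℝ) * ∑ j, θ.pr j * (θ.ga j k * (1 + (if v.val = n then 1 else 0)) /
          dn θ (hsn h v) (lsn l k) j)) - tr θ h l k v * aa θ x k := fun v => by ring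
      rw [sum_congr rfl fun v _ => e3 v, sum_sub_distrib, ← e2, mul_sub, mul_sum, mul_sum]
      congr 1
      refine sum_congr rfl fun v _ => ?_
      ring
    rw [e1]
    have e4 : ∀ k ∈ (univ : Finset (Fin 2)), |θ.pr k * ∑ v : Fin (n + 1), tr θ h l k v *
        ((n : ℝ) * ∑ j, θ.pr j * (θ.ga j k * (1 + (if v.val = n then 1 else 0)) /
          dn θ (hsn h v) (lsn l k) j) - aa θ x k)| ≤ θ.pr k * (G * B + G / (2 * g) * (G / (2 * g * n))) := by
      intro k _
      rw [abs_mul, abs_of_nonneg (θ.pr_nonneg k)]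
      refine mul_le_mul_of_nonneg_left ?_ (θ.pr_nonneg k)
      refine (abs_sum_le_sum_abs _ _).trans ?_
      have e5 : ∀ v ∈ (univ : Finset (Fin (n + 1))), |tr θ h l k v *
        ((n : ℝ) * ∑ j, θ.pr j * (θ.ga j k * (1 + (if v.val = n then 1 else 0)) /
          dn θ (hsn h v) (lsn l k) j) - aa θ x k)| ≤
          tr θ h l k v * (G * B) + (if v = Fin.last n then tr θ h l k v * (G / (2 * g)) else 0) := by
        intro v _
        rw [abs_mul, abs_of_nonneg (tr_nonneg θ h l k v)]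
        have c2 : (v.val = n) = (v = Fin.last n) := propext ⟨fun h => Fin.ext h, fun h => by rw [h]; rfl⟩
        refine (mul_le_mul_of_nonneg_left (hP k v) (tr_nonneg θ h l k v)).trans (le_of_eq ?_)
        rw [mul_add]
        congr 1
        simp only [c2]
        split_ifs
        · rfl
        · rw [mul_zero]
      refine (sum_le_sum e5).trans ?_
      rw [sum_add_distrib, ← sum_mul, tr_sum, one_mul, sum_ite_eq', if_pos (mem_univ _)]
      have e6 : tr θ h l k (Fin.last n) ≤ G / (2 * g * n) := by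
        unfold tr
        rw [dif_neg (by simp)]
        exact div_le_div₀ hG.le (hb k k).2 (by positivity) (hDlow k)
      have e7 : tr θ h l k (Fin.last n) * (G / (2 * g)) ≤ G / (2 * g * n) * (G / (2 * g)) :=
        mul_le_mul_of_nonneg_right e6 (by positivity)
      linarith
    refine (abs_sum_le_sum_abs _ _).trans ((sum_le_sum e4).trans ?_)
    rw [← sum_mul, pr1, one_mul]
  refine hV.trans (le_of_eq_of_le (b := G ^ 2 / g ^ 2 * (1 / (n : ℝ) + |t| / 2)) ?_ ?_)
  · rw [hB]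
    field_simp
    ring
  · have : 0 ≤ |t| := abs_nonneg t
    refine mul_le_mul_of_nonneg_left ?_ (by positivity)
    linarith

end Pool.Agent.L7h75.HP
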