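import Pool.Agent.L7h7.HP.Stm

/-!
# Project HP (MP_7e57c2_pr): the drift of the three sums
-/

set_option autoImplicit false

open Finset Filter Topology

namespace Pool.Agent.L7h75.HP

open Pool.Agent.L7h7.HP

theorem lab_A {π φ : Fin 2 → ℝ} {κ Φ : ℝ} (hl : Lab π φ κ Φ) (ρ x : ℝ) : ∑ j, π j * (1 + ρ * φ j * x) = 1 := by
  have h1 := hl.sum
  have h2 := hl.mean
  rw [Fin.sum_univ_two] at h1 h2 ⊢
  linear_combination h1 + ρ * x * h2

theorem lab_B {π φ : Fin 2 → ℝ} {κ Φ : ℝ} (hl : Lab π φ κ Φ) (ρ x : ℝ) :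
    ∑ j, π j * (1 + ρ * φ j * x) * φ j = ρ * x := by
  have h1 := hl.var
  have h2 := hl.mean
  rw [Fin.sum_univ_two] at h1 h2 ⊢
  linear_combination h2 + ρ * x * h1

/-- the factor of the normalising sum -/
theorem fac_bd {ρ Φ κ S m n φ : ℝ} (hρ : 0 < ρ) (hρ1 : ρ * Φ ^ 2 ≤ 1 / 4) (hΦ : 1 ≤ Φ) (hn : 1 ≤ n)
    (hm : 2 * n + 1 ≤ m) (hκ : |κ| ≤ 2 * Φ) (hS : |S| ≤ 2 * n * Φ) (hφ : |φ| ≤ Φ) :
    0 < m / (m + ρ * φ * (κ + S)) ∧ m / (m + ρ * φ * (κ + S)) ≤ 2 ∧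
      |m / (m + ρ * φ * (κ + S)) - 1| ≤ ρ * Φ * (2 * Φ + |S|) / n := by
  have h0 : |κ + S| ≤ 2 * Φ + |S| := (abs_add_le _ _).trans (by linarith)
  have h1 : |ρ * φ * (κ + S)| ≤ ρ * Φ * (2 * Φ + |S|) := by
    rw [abs_mul, abs_mul, abs_of_pos hρ]
    exact mul_le_mul (mul_le_mul_of_nonneg_left hφ hρ.le) h0 (abs_nonneg _) (by positivity)
  have h2 : ρ * Φ * (2 * Φ + |S|) ≤ m / 2 := by
    have : ρ * Φ * (2 * Φ + |S|) ≤ ρ * Φ * (2 * Φ + 2 * n * Φ) := by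
      apply mul_le_mul_of_nonneg_left _ (by positivity)
      linarith
    have e : ρ * Φ * (2 * Φ + 2 * n * Φ) = 2 * (ρ * Φ ^ 2) * (n + 1) := by ring
    rw [e] at this
    have : 2 * (ρ * Φ ^ 2) * (n + 1) ≤ 2 * (1 / 4) * (n + 1) := by
      apply mul_le_mul_of_nonneg_right _ (by linarith)
      linarith
    linarith
  have h3 := abs_le.1 (h1.trans h2)
  have hm0 : 0 < m := by linarith
  have hD : m / 2 ≤ m + ρ * φ * (κ + S) := by linarith [h3.1]
  have hD0 : 0 < m + ρ * φ * (κ + S) := by linarith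
  refine ⟨div_pos hm0 hD0, ?_, ?_⟩
  · rw [div_le_iff₀ hD0]; linarith
  · have e : m / (m + ρ * φ * (κ + S)) - 1 = -(ρ * φ * (κ + S)) / (m + ρ * φ * (κ + S)) := by
      field_simp
      ring
    rw [e, abs_div, abs_neg, abs_of_pos hD0]
    exact div_le_div₀ ((abs_nonneg _).trans h1) h1 (by linarith) (by linarith)

/-- the weights without the factors of the normalising sums -/
noncomputable def w0 (φ : Fin 2 → ℝ) (ρ m : ℝ) {I : Type} (d : I → ℝ) (f f' : I → Fin 2) (j j' : Fin 2) :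
    Option I → ℝ
  | some v => d v / m * ((1 + ρ * φ j * φ (f v)) * (1 + ρ * φ j' * φ (f' v)))
  | none => (1 + ρ * φ j ^ 2) * (1 + ρ * φ j' ^ 2) / ((1 + ρ) * m)

theorem wtt_eq (π φ : Fin 2 → ℝ) (κ ρ m S S' : ℝ) {I : Type} (d : I → ℝ) (f f' : I → Fin 2) (j j' : Fin 2)
    (x : Option I) : wtt π φ κ ρ m S S' d f f' j j' x =
      π j * π j' * ((m / (m + ρ * φ j * (κ + S))) * (m / (m + ρ * φ j' * (κ + S')))) * w0 φ ρ m d f f' j j' x := by
  cases x with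
  | none => unfold wtt w0; ring
  | some v => unfold wtt w0; ring

theorem one_bd {ρ Φ a b : ℝ} (hρ : 0 < ρ) (hρ1 : ρ * Φ ^ 2 ≤ 1 / 4) (ha : |a| ≤ Φ) (hb : |b| ≤ Φ) :
    0 ≤ 1 + ρ * a * b ∧ 1 + ρ * a * b ≤ 2 := by
  have h1 : |ρ * a * b| ≤ ρ * Φ ^ 2 := by
    rw [mul_assoc, abs_mul, abs_mul, abs_of_pos hρ, pow_two]
    exact mul_le_mul_of_nonneg_left (mul_le_mul ha hb (abs_nonneg _) ((abs_nonneg _).trans ha)) hρ.le
  have h2 := abs_le.1 h1
  constructor <;> linarith [h2.1, h2.2]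

theorem w0_nonneg {π φ : Fin 2 → ℝ} {κ Φ : ℝ} (hl : Lab π φ κ Φ) {ρ m : ℝ} (hρ : 0 < ρ) (hρ1 : ρ * Φ ^ 2 ≤ 1 / 4)
    (hm : 0 < m) {I : Type} (d : I → ℝ) (f f' : I → Fin 2) (hd : ∀ v, 0 ≤ d v) (j j' : Fin 2) (x : Option I) :
    0 ≤ w0 φ ρ m d f f' j j' x := by
  cases x with
  | none => unfold w0; positivity
  | some v =>
    unfold w0
    have h1 := (one_bd hρ hρ1 (hl.bd j) (hl.bd (f v))).1
    have h2 := (one_bd hρ hρ1 (hl.bd j') (hl.bd (f' v))).1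
    have h3 := hd v
    positivity

theorem w0_sum {π φ : Fin 2 → ℝ} {κ Φ : ℝ} (hl : Lab π φ κ Φ) {ρ m : ℝ} (hρ : 0 < ρ) (hρ1 : ρ * Φ ^ 2 ≤ 1 / 4)
    (hm : 1 ≤ m) {I : Type} [Fintype I] (d : I → ℝ) (f f' : I → Fin 2) (hd : ∀ v, 0 ≤ d v) (hds : ∑ v, d v ≤ m)
    (j j' : Fin 2) : ∑ x, w0 φ ρ m d f f' j j' x ≤ 8 ∧ w0 φ ρ m d f f' j j' none ≤ 4 / m := by
  have hm0 : 0 < m := by linarith
  have h0 : w0 φ ρ m d f f' j j' none ≤ 4 / m := by
    unfold w0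
    have h1 := one_bd hρ hρ1 (hl.bd j) (hl.bd j)
    have h2 := one_bd hρ hρ1 (hl.bd j') (hl.bd j')
    have e1 : 1 + ρ * φ j * φ j = 1 + ρ * φ j ^ 2 := by ring
    have e2 : 1 + ρ * φ j' * φ j' = 1 + ρ * φ j' ^ 2 := by ring
    rw [e1] at h1
    rw [e2] at h2
    refine div_le_div₀ (by norm_num) ?_ hm0 ?_
    · calc (1 + ρ * φ j ^ 2) * (1 + ρ * φ j' ^ 2) ≤ 2 * 2 := mul_le_mul h1.2 h2.2 h2.1 (by norm_num)
        _ = 4 := by norm_num
    · nlinarith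
  refine ⟨?_, h0⟩
  rw [Fintype.sum_option]
  have h1 : 4 / m ≤ 4 := by rw [div_le_iff₀ hm0]; linarith
  have h2 : ∑ v, w0 φ ρ m d f f' j j' (some v) ≤ ∑ v, d v / m * 4 := by
    refine sum_le_sum fun v _ => ?_
    unfold w0
    have h1 := one_bd hρ hρ1 (hl.bd j) (hl.bd (f v))
    have h2 := one_bd hρ hρ1 (hl.bd j') (hl.bd (f' v))
    refine mul_le_mul_of_nonneg_left ?_ (div_nonneg (hd v) hm0.le)
    calc (1 + ρ * φ j * φ (f v)) * (1 + ρ * φ j' * φ (f' v)) ≤ 2 * 2 := mul_le_mul h1.2 h2.2 h2.1 (by norm_num)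
      _ = 4 := by norm_num
  have h3 : ∑ v, d v / m * 4 ≤ 4 := by
    rw [← sum_mul, ← sum_div]
    have : (∑ v, d v) / m ≤ 1 := by rw [div_le_one hm0]; exact hds
    linarith
  linarith

/-- the main estimate -/
theorem drift_core {π φ : Fin 2 → ℝ} {κ Φ : ℝ} (hl : Lab π φ κ Φ) {ρ n : ℝ} (hρ : 0 < ρ) (hρ1 : ρ * Φ ^ 2 ≤ 1 / 4)
    (hn : 1 ≤ n) {I : Type} [Fintype I] (d : I → ℝ) (f f' : I → Fin 2) (hd : ∀ v, 0 ≤ d v)
    (hds : ∑ v, d v = 2 * n) (S S' T : ℝ) (hS : |S| ≤ 2 * n * Φ) (hS' : |S'| ≤ 2 * n * Φ) (hT : |S| + |S'| ≤ T)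
    (i : Fin 2 → Fin 2 → Option I → ℝ) (hi : ∀ j j' x, |i j j' x| ≤ 2 * Φ ^ 2) (u : I → ℝ) (hu : ∀ v, |u v| ≤ Φ ^ 2)
    (c : ℝ) (hc : |c - 1| ≤ ρ)
    (hcu : ∀ v, ∑ j, ∑ j', π j * π j' * ((1 + ρ * φ j * φ (f v)) * (1 + ρ * φ j' * φ (f' v)) * i j j' (some v)) =
      c * u v) (hXT : |∑ v, d v * u v| ≤ T) :
    |∑ j, ∑ j', ∑ x, wtt π φ κ ρ (2 * n + 1 + ρ) S S' d f f' j j' x * i j j' x - (∑ v, d v * u v) / (2 * n)| ≤
      200 * Φ ^ 4 * (ρ * T + 1) / n := by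
  have hΦ := hl.one
  have hn0 : 0 < n := by linarith
  set m := 2 * n + 1 + ρ with hm
  have hm1 : 2 * n + 1 ≤ m := by linarith
  have hm0 : 0 < m := by linarith
  set X := ∑ v, d v * u v with hX
  have hΦ2 : 1 ≤ Φ ^ 2 := one_le_pow₀ hΦ
  have hρle : ρ ≤ 1 / 4 := by nlinarith
  -- the error of the factors
  set R : Fin 2 → Fin 2 → ℝ := fun j j' => ∑ x, w0 φ ρ m d f f' j j' x * i j j' x with hR
  have hRb : ∀ j j', |R j j'| ≤ 16 * Φ ^ 2 := by
    intro j j'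
    refine (abs_sum_le_sum_abs _ _).trans ?_
    have h1 : ∀ x ∈ (univ : Finset (Option I)), |w0 φ ρ m d f f' j j' x * i j j' x| ≤
        w0 φ ρ m d f f' j j' x * (2 * Φ ^ 2) := by
      intro x _
      have h2 := w0_nonneg hl hρ hρ1 hm0 d f f' hd j j' x
      rw [abs_mul, abs_of_nonneg h2]
      exact mul_le_mul_of_nonneg_left (hi j j' x) h2
    refine (sum_le_sum h1).trans ?_
    rw [← sum_mul]
    have h3 := (w0_sum hl hρ hρ1 (show 1 ≤ m by linarith) d f f' hd (by rw [hds]; linarith) j j').1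
    nlinarith
  have e1 : ∑ j, ∑ j', ∑ x, wtt π φ κ ρ m S S' d f f' j j' x * i j j' x =
      ∑ j, ∑ j', π j * π j' * R j j' +
      ∑ j, ∑ j', π j * π j' * (((m / (m + ρ * φ j * (κ + S))) * (m / (m + ρ * φ j' * (κ + S'))) - 1) * R j j') := by
    rw [← sum_add_distrib]
    refine sum_congr rfl fun j _ => ?_
    rw [← sum_add_distrib]
    refine sum_congr rfl fun j' _ => ?_
    have e2 : ∀ x, wtt π φ κ ρ m S S' d f f' j j' x * i j j' x =
        π j * π j' * ((m / (m + ρ * φ j * (κ + S))) * (m / (m + ρ * φ j' * (κ + S')))) *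
          (w0 φ ρ m d f f' j j' x * i j j' x) := by
      intro x
      rw [wtt_eq]; ring
    rw [sum_congr rfl fun x _ => e2 x, ← mul_sum]
    ring
  -- the sum of the probabilities
  have hpp : ∑ j, ∑ j', π j * π j' = 1 := by
    have h1 := hl.sum
    have e3 : ∀ j, ∑ j', π j * π j' = π j := fun j => by rw [← mul_sum, h1, mul_one]
    rw [sum_congr rfl fun j _ => e3 j, h1]
  have hsum : ∀ (F : Fin 2 → Fin 2 → ℝ) (B : ℝ), (∀ j j', |F j j'| ≤ B) → |∑ j, ∑ j', π j * π j' * F j j'| ≤ B := by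
    intro F B hF
    refine (abs_sum_le_sum_abs _ _).trans ?_
    have h1 : ∀ j ∈ (univ : Finset (Fin 2)), |∑ j', π j * π j' * F j j'| ≤ ∑ j', π j * π j' * B := by
      intro j _
      refine (abs_sum_le_sum_abs _ _).trans (sum_le_sum fun j' _ => ?_)
      have h2 : 0 ≤ π j * π j' := mul_nonneg (hl.nn j) (hl.nn j')
      rw [abs_mul, abs_of_nonneg h2]
      exact mul_le_mul_of_nonneg_left (hF j j') h2
    refine (sum_le_sum h1).trans ?_
    have e4 : ∑ j, ∑ j', π j * π j' * B = (∑ j, ∑ j', π j * π j') * B := by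
      rw [sum_mul]
      refine sum_congr rfl fun j _ => ?_
      rw [sum_mul]
    rw [e4, hpp, one_mul]
  have hE : |∑ j, ∑ j', π j * π j' * (((m / (m + ρ * φ j * (κ + S))) * (m / (m + ρ * φ j' * (κ + S'))) - 1) *
      R j j')| ≤ 32 * Φ ^ 3 * (ρ * (4 * Φ + T)) / n := by
    refine hsum _ _ fun j j' => ?_
    obtain ⟨a1, a2, a3⟩ := fac_bd (φ := φ j) hρ hρ1 hΦ hn hm1 hl.kbd hS (hl.bd j)
    obtain ⟨b1, b2, b3⟩ := fac_bd (φ := φ j') hρ hρ1 hΦ hn hm1 hl.kbd hS' (hl.bd j')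
    set P := m / (m + ρ * φ j * (κ + S))
    set Q := m / (m + ρ * φ j' * (κ + S'))
    rw [abs_mul]
    have h1 : |P * Q - 1| ≤ 2 * (ρ * Φ * (4 * Φ + T) / n) := by
      have e5 : P * Q - 1 = (P - 1) * Q + (Q - 1) := by ring
      rw [e5]
      refine (abs_add_le _ _).trans ?_
      rw [abs_mul, abs_of_pos b1]
      have h2 : |P - 1| * Q ≤ ρ * Φ * (2 * Φ + |S|) / n * 2 :=
        mul_le_mul a3 b2 b1.le ((abs_nonneg _).trans a3)
      have h3 : ρ * Φ * (2 * Φ + |S'|) / n ≤ ρ * Φ * (2 * Φ + |S'|) / n * 2 := by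
        have := (abs_nonneg _).trans b3
        linarith
      have e6 : ρ * Φ * (2 * Φ + |S|) / n * 2 + ρ * Φ * (2 * Φ + |S'|) / n * 2 =
          2 * (ρ * Φ * (4 * Φ + (|S| + |S'|)) / n) := by ring
      have h4 : ρ * Φ * (4 * Φ + (|S| + |S'|)) / n ≤ ρ * Φ * (4 * Φ + T) / n := by
        apply div_le_div_of_nonneg_right _ hn0.le
        apply mul_le_mul_of_nonneg_left _ (by positivity)
        linarith
      linarith
    calc |P * Q - 1| * |R j j'| ≤ 2 * (ρ * Φ * (4 * Φ + T) / n) * (16 * Φ ^ 2) :=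
          mul_le_mul h1 (hRb j j') (abs_nonneg _) ((abs_nonneg _).trans h1)
      _ = 32 * Φ ^ 3 * (ρ * (4 * Φ + T)) / n := by ring
  -- the main term
  have e2 : ∑ j, ∑ j', π j * π j' * R j j' =
      ∑ j, ∑ j', π j * π j' * (w0 φ ρ m d f f' j j' none * i j j' none) + c * X / m := by
    have e3 : ∀ j j', π j * π j' * R j j' = π j * π j' * (w0 φ ρ m d f f' j j' none * i j j' none) +
        ∑ v, d v / m * (π j * π j' * ((1 + ρ * φ j * φ (f v)) * (1 + ρ * φ j' * φ (f' v)) * i j j' (some v))) := by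
      intro j j'
      show π j * π j' * (∑ x, w0 φ ρ m d f f' j j' x * i j j' x) = _
      rw [Fintype.sum_option, mul_add, mul_sum]
      congr 1
      refine sum_congr rfl fun v _ => ?_
      unfold w0
      ring
    simp only [e3, sum_add_distrib]
    congr 1
    have e4 : ∀ j, ∑ j', ∑ v, d v / m * (π j * π j' * ((1 + ρ * φ j * φ (f v)) * (1 + ρ * φ j' * φ (f' v)) *
        i j j' (some v))) = ∑ v, d v / m * ∑ j', (π j * π j' * ((1 + ρ * φ j * φ (f v)) *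
          (1 + ρ * φ j' * φ (f' v)) * i j j' (some v))) := by
      intro j
      rw [sum_comm]
      refine sum_congr rfl fun v _ => ?_
      rw [mul_sum]
    rw [sum_congr rfl fun j _ => e4 j, sum_comm]
    have e5 : ∀ v, ∑ j, d v / m * ∑ j', (π j * π j' * ((1 + ρ * φ j * φ (f v)) *
          (1 + ρ * φ j' * φ (f' v)) * i j j' (some v))) = d v * u v * (c / m) := by
      intro v
      rw [← mul_sum, hcu v]
      ring
    rw [sum_congr rfl fun v _ => e5 v, ← sum_mul]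
    ring
  have hN : |∑ j, ∑ j', π j * π j' * (w0 φ ρ m d f f' j j' none * i j j' none)| ≤ 4 * Φ ^ 2 / n := by
    refine hsum _ _ fun j j' => ?_
    have h2 := w0_nonneg hl hρ hρ1 hm0 d f f' hd j j' none
    have h3 := (w0_sum hl hρ hρ1 (show 1 ≤ m by linarith) d f f' hd (by rw [hds]; linarith) j j').2
    rw [abs_mul, abs_of_nonneg h2]
    have h4 : (4 : ℝ) / m ≤ 4 / (2 * n) := div_le_div_of_nonneg_left (by norm_num) (by positivity) (by linarith)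
    calc w0 φ ρ m d f f' j j' none * |i j j' none| ≤ 4 / (2 * n) * (2 * Φ ^ 2) :=
          mul_le_mul (h3.trans h4) (hi _ _ _) (abs_nonneg _) (by positivity)
      _ = 4 * Φ ^ 2 / n := by field_simp
  have hXb : |X| ≤ 2 * n * Φ ^ 2 := by
    refine (abs_sum_le_sum_abs _ _).trans ?_
    have h1 : ∀ v ∈ (univ : Finset I), |d v * u v| ≤ d v * Φ ^ 2 := by
      intro v _
      rw [abs_mul, abs_of_nonneg (hd v)]
      exact mul_le_mul_of_nonneg_left (hu v) (hd v)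
    refine (sum_le_sum h1).trans ?_
    rw [← sum_mul, hds]
  have hM : |c * X / m - X / (2 * n)| ≤ (ρ * T + Φ ^ 2) / n := by
    have e6 : c * X / m - X / (2 * n) = X * ((2 * n * (c - 1) - (1 + ρ)) / (2 * n * m)) := by
      have : (2 * n + 1 + ρ) ≠ 0 := by rw [← hm]; exact hm0.ne'
      rw [hm]
      field_simp
      ring
    rw [e6, abs_mul, abs_div, abs_of_pos (show 0 < 2 * n * m by positivity)]
    have h1 : |2 * n * (c - 1) - (1 + ρ)| ≤ 2 * n * ρ + 2 := by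
      refine (abs_sub _ _).trans ?_
      rw [abs_mul, abs_of_pos (show 0 < 2 * n by positivity), abs_of_pos (show 0 < 1 + ρ by positivity)]
      have := mul_le_mul_of_nonneg_left hc (show 0 ≤ 2 * n by positivity)
      linarith
    have h2 : |2 * n * (c - 1) - (1 + ρ)| / (2 * n * m) ≤ (2 * n * ρ + 2) / (2 * n * (2 * n)) :=
      div_le_div₀ (by positivity) h1 (by positivity)
        (mul_le_mul_of_nonneg_left (by linarith) (by positivity))
    calc |X| * (|2 * n * (c - 1) - (1 + ρ)| / (2 * n * m)) ≤ |X| * ((2 * n * ρ + 2) / (2 * n * (2 * n))) :=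
          mul_le_mul_of_nonneg_left h2 (abs_nonneg _)
      _ = (ρ * |X| / 2 + |X| / (2 * n)) / n := by field_simp
      _ ≤ (ρ * T + Φ ^ 2) / n := by
          apply div_le_div_of_nonneg_right _ hn0.le
          have h3 : |X| / (2 * n) ≤ Φ ^ 2 := by
            rw [div_le_iff₀ (by positivity)]
            linarith
          have h4 : ρ * |X| ≤ ρ * T := mul_le_mul_of_nonneg_left hXT hρ.le
          have h5 : 0 ≤ ρ * |X| := by positivity
          linarith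
  rw [e1, e2]
  have hTn : 0 ≤ T := by have := abs_nonneg S; have := abs_nonneg S'; linarith
  have hfin : 4 * Φ ^ 2 / n + (ρ * T + Φ ^ 2) / n + 32 * Φ ^ 3 * (ρ * (4 * Φ + T)) / n ≤
      200 * Φ ^ 4 * (ρ * T + 1) / n := by
    rw [← add_div, ← add_div]
    apply div_le_div_of_nonneg_right _ hn0.le
    have hΦ4 : Φ ^ 2 ≤ Φ ^ 4 := pow_le_pow_right₀ hΦ (by norm_num)
    have hΦ34 : Φ ^ 3 ≤ Φ ^ 4 := pow_le_pow_right₀ hΦ (by norm_num)
    have hρT : 0 ≤ ρ * T := by positivity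
    have k1 : Φ ^ 3 * (ρ * T) ≤ Φ ^ 4 * (ρ * T) := mul_le_mul_of_nonneg_right hΦ34 hρT
    have k2 : ρ * Φ ^ 4 ≤ 1 / 4 * Φ ^ 4 := mul_le_mul_of_nonneg_right hρle (by positivity)
    have k3 : ρ * T ≤ Φ ^ 4 * (ρ * T) := by
      have : 1 ≤ Φ ^ 4 := one_le_pow₀ hΦ
      nlinarith
    have e7 : 32 * Φ ^ 3 * (ρ * (4 * Φ + T)) = 128 * (ρ * Φ ^ 4) + 32 * (Φ ^ 3 * (ρ * T)) := by ring
    rw [e7]
    nlinarith
  have hall := abs_le.1 hN
  have hall2 := abs_le.1 hM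
  have hall3 := abs_le.1 hE
  rw [abs_le]
  constructor <;> linarith [hall.1, hall.2, hall2.1, hall2.2, hall3.1, hall3.2]

theorem s_DRIFT : S_DRIFT := by
  intro Φ hΦ
  have hΦ0 : 0 < Φ := by linarith
  refine ⟨1 / (4 * Φ ^ 2), 200 * Φ ^ 4, by positivity, ?_, ?_⟩
  · have : 1 ≤ Φ ^ 4 := one_le_pow₀ hΦ
    linarith
  intro π φ κ hl ρ hρ hρ0 n hn I _ d f f' hd hds
  have hn1 : (1 : ℝ) ≤ n := by exact_mod_cast hn
  have hn0 : (0 : ℝ) < n := by linarith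
  have hρ1 : ρ * Φ ^ 2 ≤ 1 / 4 := by
    rw [le_div_iff₀ (by positivity)] at hρ0
    linarith
  have hbd : ∀ (g : I → ℝ) (B : ℝ), (∀ v, |g v| ≤ B) → |∑ v, d v * g v| ≤ 2 * n * B := by
    intro g B hg
    refine (abs_sum_le_sum_abs _ _).trans ?_
    have h1 : ∀ v ∈ (univ : Finset I), |d v * g v| ≤ d v * B := by
      intro v _
      rw [abs_mul, abs_of_nonneg (hd v)]
      exact mul_le_mul_of_nonneg_left (hg v) (hd v)
    refine (sum_le_sum h1).trans ?_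
    rw [← sum_mul, hds]
  have v0 : vec φ d f f' 0 = ∑ v, d v * φ (f v) := rfl
  have v1 : vec φ d f f' 1 = ∑ v, d v * φ (f' v) := rfl
  have v2 : vec φ d f f' 2 = ∑ v, d v * (φ (f v) * φ (f' v)) := rfl
  have hS : |vec φ d f f' 0| ≤ 2 * n * Φ := hbd _ _ fun v => hl.bd _
  have hS' : |vec φ d f f' 1| ≤ 2 * n * Φ := hbd _ _ fun v => hl.bd _
  have hΦ2 : Φ ≤ Φ ^ 2 := by nlinarith
  have hmul : ∀ a b : ℝ, |a| ≤ Φ → |b| ≤ Φ → |a * b| ≤ Φ ^ 2 := by
    intro a b ha hb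
    rw [abs_mul, pow_two]
    exact mul_le_mul ha hb (abs_nonneg _) hΦ0.le
  refine ⟨fun j j' x => ?_, fun k => ?_⟩
  · rw [wtt_eq]
    obtain ⟨a1, -, -⟩ := fac_bd (φ := φ j) (m := 2 * n + 1 + ρ) hρ hρ1 hΦ hn1 (by linarith) hl.kbd hS (hl.bd j)
    obtain ⟨b1, -, -⟩ := fac_bd (φ := φ j') (m := 2 * n + 1 + ρ) hρ hρ1 hΦ hn1 (by linarith) hl.kbd hS' (hl.bd j')
    have h2 := w0_nonneg hl hρ hρ1 (show 0 < 2 * n + 1 + ρ by positivity) d f f' hd j j' x
    have h3 := hl.nn j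
    have h4 := hl.nn j'
    positivity
  · have hsum3 : ∑ k', |vec φ d f f' k'| = |vec φ d f f' 0| + |vec φ d f f' 1| + |vec φ d f f' 2| :=
      Fin.sum_univ_three _
    have p0 := abs_nonneg (vec φ d f f' 0)
    have p1 := abs_nonneg (vec φ d f f' 1)
    have p2 := abs_nonneg (vec φ d f f' 2)
    have hinc : ∀ (k : Fin 3) (j j' : Fin 2) (x : Option I), |inc φ f f' j j' x k| ≤ 2 * Φ ^ 2 := by
      intro k j j' x
      have a1 := hl.bd j
      have a2 := hl.bd j'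
      cases x with
      | none =>
        fin_cases k
        · show |2 * φ j| ≤ _
          rw [abs_mul, abs_two]; linarith
        · show |2 * φ j'| ≤ _
          rw [abs_mul, abs_two]; linarith
        · show |2 * (φ j * φ j')| ≤ _
          rw [abs_mul, abs_two]; linarith [hmul _ _ a1 a2]
      | some v =>
        fin_cases k
        · show |φ j + φ (f v)| ≤ _
          exact (abs_add_le _ _).trans (by linarith [hl.bd (f v)])
        · show |φ j' + φ (f' v)| ≤ _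
          exact (abs_add_le _ _).trans (by linarith [hl.bd (f' v)])
        · show |φ j * φ j' + φ (f v) * φ (f' v)| ≤ _
          exact (abs_add_le _ _).trans (by linarith [hmul _ _ a1 a2, hmul _ _ (hl.bd (f v)) (hl.bd (f' v))])
    have hρle : ρ ≤ 1 := by nlinarith [one_le_pow₀ hΦ (n := 2)]
    rw [hsum3]
    fin_cases k
    · refine drift_core hl hρ hρ1 hn1 d f f' hd hds _ _ _ hS hS' (by linarith) (fun j j' x => inc φ f f' j j' x 0)
        (hinc 0) (fun v => φ (f v)) (fun v => (hl.bd _).trans hΦ2) (1 + ρ) (by simp [abs_of_pos hρ]) (fun v => ?_)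
        (by rw [← v0]; linarith)
      have e1 : ∑ j, ∑ j', π j * π j' * ((1 + ρ * φ j * φ (f v)) * (1 + ρ * φ j' * φ (f' v)) * (φ j + φ (f v))) =
          (∑ j, π j * (1 + ρ * φ j * φ (f v)) * φ j + φ (f v) * ∑ j, π j * (1 + ρ * φ j * φ (f v))) *
            ∑ j', π j' * (1 + ρ * φ j' * φ (f' v)) := by
        simp only [Fin.sum_univ_two]; ring
      show ∑ j, ∑ j', π j * π j' * ((1 + ρ * φ j * φ (f v)) * (1 + ρ * φ j' * φ (f' v)) * (φ j + φ (f v))) = _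
      rw [e1, lab_A hl, lab_A hl, lab_B hl]; ring
    · refine drift_core hl hρ hρ1 hn1 d f f' hd hds _ _ _ hS hS' (by linarith) (fun j j' x => inc φ f f' j j' x 1)
        (hinc 1) (fun v => φ (f' v)) (fun v => (hl.bd _).trans hΦ2) (1 + ρ) (by simp [abs_of_pos hρ]) (fun v => ?_)
        (by rw [← v1]; linarith)
      have e1 : ∑ j, ∑ j', π j * π j' * ((1 + ρ * φ j * φ (f v)) * (1 + ρ * φ j' * φ (f' v)) * (φ j' + φ (f' v))) =
          (∑ j', π j' * (1 + ρ * φ j' * φ (f' v)) * φ j' + φ (f' v) * ∑ j', π j' * (1 + ρ * φ j' * φ (f' v))) *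
            ∑ j, π j * (1 + ρ * φ j * φ (f v)) := by
        simp only [Fin.sum_univ_two]; ring
      show ∑ j, ∑ j', π j * π j' * ((1 + ρ * φ j * φ (f v)) * (1 + ρ * φ j' * φ (f' v)) * (φ j' + φ (f' v))) = _
      rw [e1, lab_A hl, lab_A hl, lab_B hl]; ring
    · refine drift_core hl hρ hρ1 hn1 d f f' hd hds _ _ _ hS hS' (by linarith) (fun j j' x => inc φ f f' j j' x 2)
        (hinc 2) (fun v => φ (f v) * φ (f' v)) (fun v => hmul _ _ (hl.bd _) (hl.bd _)) (1 + ρ ^ 2) ?_ (fun v => ?_)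
        (by rw [← v2]; linarith)
      · rw [show 1 + ρ ^ 2 - 1 = ρ ^ 2 by ring, abs_of_nonneg (by positivity)]
        nlinarith
      have e1 : ∑ j, ∑ j', π j * π j' * ((1 + ρ * φ j * φ (f v)) * (1 + ρ * φ j' * φ (f' v)) *
          (φ j * φ j' + φ (f v) * φ (f' v))) =
          (∑ j, π j * (1 + ρ * φ j * φ (f v)) * φ j) * (∑ j', π j' * (1 + ρ * φ j' * φ (f' v)) * φ j') +
          φ (f v) * φ (f' v) * ((∑ j, π j * (1 + ρ * φ j * φ (f v))) * ∑ j', π j' * (1 + ρ * φ j' * φ (f' v))) := by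
        simp only [Fin.sum_univ_two]; ring
      show ∑ j, ∑ j', π j * π j' * ((1 + ρ * φ j * φ (f v)) * (1 + ρ * φ j' * φ (f' v)) *
          (φ j * φ j' + φ (f v) * φ (f' v))) = _
      rw [e1, lab_A hl, lab_A hl, lab_B hl, lab_B hl]; ring

end Pool.Agent.L7h75.HP
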