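import Pool.Agent.L7h7.HP.Snoc

/-!
# Project HP (MP_7e57c2_pr): the product of the degrees
-/

set_option autoImplicit false

open Finset Filter Topology

namespace Pool.Agent.L7h75.HP

open Pool.Agent.L7h7.HP

theorem deg_pos {n : ℕ} (h : Hist n) (u : Fin n) : 1 ≤ deg h n u.val := by
  unfold deg
  rw [if_pos u.isLt]
  omega

theorem fact_succ {n : ℕ} (h : Hist n) (v : Fin (n + 1)) :
    ∏ u : Fin (n + 1), ((deg (hsn h v) (n + 1) u.val - 1).factorial : ℝ) =
      (∏ u : Fin n, ((deg h n u.val - 1).factorial : ℝ)) * (if v.val = n then (1 : ℝ) else (deg h n v.val : ℝ)) := by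
  rw [Fin.prod_univ_castSucc]
  have e1 : deg (hsn h v) (n + 1) (Fin.last n).val - 1 = if n = v.val then 1 else 0 := by
    rw [deg_hsn_succ h v _ (by simp), Fin.val_last, deg_self, if_pos rfl]
    omega
  have e2 : ((deg (hsn h v) (n + 1) (Fin.last n).val - 1).factorial : ℝ) = 1 := by
    rw [e1]
    split_ifs <;> simp
  rw [e2, mul_one]
  have e3 : ∀ u : Fin n, ((deg (hsn h v) (n + 1) (u.castSucc).val - 1).factorial : ℝ) =
      ((deg h n u.val - 1).factorial : ℝ) * (if u.val = v.val then (deg h n u.val : ℝ) else 1) := by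
    intro u
    have h1 := u.isLt
    have h2 := deg_pos h u
    have e4 : deg (hsn h v) (n + 1) (u.castSucc).val = deg h n u.val + (if u.val = v.val then 1 else 0) := by
      rw [deg_hsn_succ h v _ (by simp only [Fin.val_castSucc]; omega), Fin.val_castSucc,
        if_neg (show ¬ u.val = n by omega), add_zero]
    rw [e4]
    split_ifs with hv
    · obtain ⟨d, hd⟩ : ∃ d, deg h n u.val = d + 1 := ⟨deg h n u.val - 1, by omega⟩
      rw [hd]
      simp only [Nat.add_sub_cancel]
      rw [Nat.factorial_succ]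
      push_cast
      ring
    · rw [add_zero, mul_one]
  rw [prod_congr rfl fun u _ => e3 u, prod_mul_distrib]
  congr 1
  by_cases hv : v.val = n
  · rw [if_pos hv]
    refine prod_eq_one fun u _ => ?_
    rw [if_neg]
    have := u.isLt
    omega
  · rw [if_neg hv]
    have hlt : v.val < n := by have := v.isLt; omega
    rw [prod_eq_single (⟨v.val, hlt⟩ : Fin n)]
    · simp
    · intro u _ hu
      rw [if_neg]
      intro h3
      exact hu (Fin.ext h3)
    · intro h3
      exact absurd (mem_univ _) h3

theorem exists_hsn {n : ℕ} (h : Hist (n + 1)) : ∃ (h' : Hist n) (v : Fin (n + 1)), h = hsn h' v := by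
  obtain ⟨⟨v, h'⟩, h1⟩ : ∃ w, (Fin.snocEquiv (fun k : Fin (n + 1) => Fin (k.val + 1))) w = h :=
    (Fin.snocEquiv (fun k : Fin (n + 1) => Fin (k.val + 1))).surjective h
  exact ⟨h', v, h1.symm⟩

theorem fact_main : ∀ {n : ℕ} (h : Hist n),
    ∏ v : Fin n, ((deg h n v.val - 1).factorial : ℝ) =
      ∏ k : Fin n, (if (h k).val = k.val then (1 : ℝ) else (deg h k.val (h k).val : ℝ)) := by
  intro n
  induction n with
  | zero => intro h; simp
  | succ n ih =>
    intro h
    obtain ⟨h', v, rfl⟩ := exists_hsn h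
    rw [fact_succ h' v, ih h', Fin.prod_univ_castSucc]
    congr 1
    · refine prod_congr rfl fun k _ => ?_
      have h2 : (hsn h' v k.castSucc).val = (h' k).val := congrArg Fin.val (hsn_cs h' v k)
      rw [h2]
      have h4 : (k.castSucc).val = k.val := rfl
      rw [h4, deg_hsn_le h' v k.val _ k.isLt.le]
    · have h3 : (hsn h' v (Fin.last n)).val = v.val := congrArg Fin.val (hsn_last h' v)
      rw [h3]
      have h4 : (Fin.last n).val = n := rfl
      rw [h4, deg_hsn_le h' v n _ le_rfl]

theorem s_FACT : S_FACT := fun h => fact_main h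

end Pool.Agent.L7h75.HP
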