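import Pool.Agent.L7h7.HP.Stm2

/-!
# Project HP (MP_7e57c2_pr): the balanced parameters
-/

set_option autoImplicit false

open Finset Filter Topology

namespace Pool.Agent.L7h75.HP

open Pool.Agent.L7h7.HP

theorem s_LABB : S_LABB := by
  intro ε hε hε2
  refine ⟨√(1 / ε) + 1, by have := Real.sqrt_nonneg (1 / ε); linarith, fun θ p ρ hB hp1 hp2 => ?_⟩
  have hp := hB.hp
  have hp' := hB.hp'
  have hq : 0 < 1 - p := by linarith
  set a := √((1 - p) / p) with ha
  set b := √(p / (1 - p)) with hb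
  have ha0 : 0 ≤ a := Real.sqrt_nonneg _
  have hb0 : 0 ≤ b := Real.sqrt_nonneg _
  have ha2 : a ^ 2 = (1 - p) / p := Real.sq_sqrt (by positivity)
  have hb2 : b ^ 2 = p / (1 - p) := Real.sq_sqrt (by positivity)
  have hab : a * b = 1 := by
    rw [ha, hb, ← Real.sqrt_mul (by positivity), show (1 - p) / p * (p / (1 - p)) = 1 by field_simp, Real.sqrt_one]
  have h0 : ph p 0 = a := rfl
  have h1 : ph p 1 = - b := rfl
  have pr1 : θ.pr 1 = 1 - p := by
    have := θ.pr_sum
    rw [Fin.sum_univ_two, hB.pr0] at this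
    linarith
  have hpa : p * a ^ 2 = 1 - p := by rw [ha2]; field_simp
  have hqb : (1 - p) * b ^ 2 = p := by rw [hb2]; field_simp
  have hpaqb : p * a = (1 - p) * b := by
    have e1 : p * a * a = (1 - p) * b * a := by
      calc p * a * a = p * a ^ 2 := by ring
        _ = 1 - p := hpa
        _ = (1 - p) * (a * b) := by rw [hab, mul_one]
        _ = (1 - p) * b * a := by ring
    have ha' : a ≠ 0 := by
      intro h
      rw [h, zero_mul] at hab
      exact zero_ne_one hab
    exact mul_right_cancel₀ ha' e1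
  have hbd : a ≤ √(1 / ε) + 1 := by
    have : a ≤ √(1 / ε) := by
      refine Real.sqrt_le_sqrt ?_
      rw [div_le_div_iff₀ hp hε]
      nlinarith
    linarith
  have hb1 : b ≤ 1 := by
    rw [hb]
    refine Real.sqrt_le_one.2 ?_
    rw [div_le_one hq]
    linarith
  have hΦ : 0 ≤ √(1 / ε) := Real.sqrt_nonneg _
  refine ⟨⟨θ.pr_nonneg, θ.pr_sum, ?_, ?_, ?_, ?_, by linarith, ?_⟩, ?_⟩
  · rw [Fin.sum_univ_two, hB.pr0, pr1, h0, h1]
    linarith
  · rw [Fin.sum_univ_two, hB.pr0, pr1, h0, h1, neg_sq]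
    linarith
  · intro j
    fin_cases j
    · show ph p 0 ^ 2 = 1 + (ph p 0 + ph p 1) * ph p 0
      rw [h0, h1]
      linear_combination hab
    · show ph p 1 ^ 2 = 1 + (ph p 0 + ph p 1) * ph p 1
      rw [h0, h1]
      linear_combination hab
  · intro j
    fin_cases j
    · show |ph p 0| ≤ _
      rw [h0, abs_of_nonneg ha0]
      exact hbd
    · show |ph p 1| ≤ _
      rw [h1, abs_neg, abs_of_nonneg hb0]
      linarith
  · rw [h0, h1]
    rw [abs_le]
    constructor <;> linarith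
  · intro i j
    fin_cases i <;> fin_cases j
    · show θ.ga 0 0 = 1 + ρ * ph p 0 * ph p 0
      rw [hB.g00, h0, ← ha2]; ring
    · show θ.ga 0 1 = 1 + ρ * ph p 0 * ph p 1
      rw [hB.g01, h0, h1]; linear_combination ρ * hab
    · show θ.ga 1 0 = 1 + ρ * ph p 1 * ph p 0
      rw [θ.ga_symm, hB.g01, h0, h1]; linear_combination ρ * hab
    · show θ.ga 1 1 = 1 + ρ * ph p 1 * ph p 1
      rw [hB.g11, h1, ← hb2]; ring

end Pool.Agent.L7h75.HP
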