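import Pool.Agent.L7h75.HP.Leaf
import Pool.Agent.L7h7.HP.Two

/-!
# Project HP (MP_7e57c2_pr): the probability of a loop
-/

set_option autoImplicit false

open Finset Filter Topology

namespace Pool.Agent.L7h75.HP

open Pool.Agent.L7h7.HP

theorem s_LOOP : S_LOOP := by
  intro θ x hx
  obtain ⟨g, G, hg, hgG, hb⟩ := ga_bd θ
  have hG : 0 < G := lt_of_lt_of_le hg hgG
  have hs := hx.sum
  rw [Fin.sum_univ_two] at hs
  have x0 := hx.nn 0
  have x1 := hx.nn 1
  have hhg : ∀ j, g ≤ hh θ x j := by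
    intro j
    unfold hh
    rw [Fin.sum_univ_two]
    nlinarith [mul_le_mul_of_nonneg_right (hb j 0).1 x0, mul_le_mul_of_nonneg_right (hb j 1).1 x1]
  have pr1 : ∑ k, θ.pr k = 1 := θ.pr_sum
  have key : (fun n : ℕ => (n : ℝ) * loopP θ n) = fun n : ℕ => Ex θ n fun h l => (n : ℝ) *
      ∑ j, θ.pr j * (θ.ga j j / dn θ h l j) := by
    funext n
    rw [loopP_eq, ← Ex_smul]
  rw [key]
  refine tendsto_Ex θ (x 0) hx.lln _ _ (G ^ 2 / g ^ 2) (by positivity) fun n hn h l => ?_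
  have hn0 : (0 : ℝ) < n := by exact_mod_cast hn
  set t := NN h l / (2 * n) - x 0 with ht
  have hN : NN h l = 2 * n * (t + x 0) := by rw [ht]; field_simp; ring
  have hN0 := NN_nonneg h l
  have hN1 := NN_le h l
  have hDlow : ∀ j, 2 * g * n ≤ dn θ h l j := by
    intro j
    rw [dn_NN]
    have := (hb j j).1
    nlinarith [mul_le_mul_of_nonneg_right (hb j 0).1 hN0,
      mul_le_mul_of_nonneg_right (hb j 1).1 (show 0 ≤ 2 * n - NN h l by linarith)]
  have hDup : ∀ j, |dn θ h l j - 2 * n * hh θ x j| ≤ 3 * G + 2 * n * G * |t| := by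
    intro j
    have e1 : dn θ h l j - 2 * n * hh θ x j = θ.ga j j + 2 * n * ((θ.ga j 0 - θ.ga j 1) * t) := by
      rw [dn_NN, hN]
      unfold hh
      rw [Fin.sum_univ_two]
      have : x 1 = 1 - x 0 := by linarith
      rw [this]; ring
    rw [e1]
    refine (abs_add_le _ _).trans ?_
    have e2 : |θ.ga j j| ≤ G := by rw [abs_of_pos (θ.ga_pos _ _)]; exact (hb j j).2
    have e3 : |2 * n * ((θ.ga j 0 - θ.ga j 1) * t)| ≤ 2 * n * G * |t| := by
      rw [abs_mul (2 * (n : ℝ)), abs_mul (θ.ga j 0 - θ.ga j 1), abs_of_pos (show (0 : ℝ) < 2 * n by positivity),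
        mul_assoc (2 * (n : ℝ))]
      refine mul_le_mul_of_nonneg_left (mul_le_mul_of_nonneg_right ?_ (abs_nonneg t)) (by positivity)
      rw [abs_le]
      have := (hb j 0).2
      have := (hb j 1).2
      have := θ.ga_pos j 0
      have := θ.ga_pos j 1
      constructor <;> linarith
    linarith
  set B := (3 * G + 2 * n * G * |t|) / (4 * g ^ 2 * n) with hB
  have e1 : (n : ℝ) * ∑ j, θ.pr j * (θ.ga j j / dn θ h l j) - ∑ l, θ.pr l * θ.ga l l / (2 * hh θ x l) =
      ∑ j, θ.pr j * (θ.ga j j * (n / dn θ h l j - 1 / (2 * hh θ x j))) := by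
    rw [mul_sum, ← sum_sub_distrib]
    refine sum_congr rfl fun j _ => ?_
    ring
  rw [e1]
  have e2 : ∀ j ∈ (univ : Finset (Fin 2)), |θ.pr j * (θ.ga j j * (n / dn θ h l j - 1 / (2 * hh θ x j)))| ≤
      θ.pr j * (G * B) := by
    intro j _
    rw [abs_mul, abs_of_nonneg (θ.pr_nonneg j), abs_mul, abs_of_pos (θ.ga_pos _ _)]
    exact mul_le_mul_of_nonneg_left
      (mul_le_mul (hb j j).2 (quot_bd hn hg (hDlow j) (hhg j) (hDup j)) (abs_nonneg _) hG.le) (θ.pr_nonneg j)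
  refine (abs_sum_le_sum_abs _ _).trans ((sum_le_sum e2).trans ?_)
  rw [← sum_mul, pr1, one_mul]
  refine le_of_eq_of_le (b := G ^ 2 / g ^ 2 * (3 / 4 * (1 / (n : ℝ)) + |t| / 2)) ?_ ?_
  · rw [hB]
    field_simp
    ring
  · have h1 : 0 ≤ |t| := abs_nonneg t
    have h2 : 0 ≤ 1 / (n : ℝ) := by positivity
    refine mul_le_mul_of_nonneg_left ?_ (by positivity)
    linarith

end Pool.Agent.L7h75.HP
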